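import Pool.Agent.Helper45.TW.Defs
import Pool.Agent.Helper99.M.MU

/-!
# Project TW (MP_e66f84_ag), block KD (Kummer duality)
-/

set_option autoImplicit false

namespace Pool.Agent.TOW

open VC IntermediateField NumberField IsDedekindDomain Pool.Agent.SC Pool.Agent.L Pool.Agent.M

noncomputable section

/-- Kummer duality: every character of the group of `n`-th roots of elements of `M`, trivial on `M`,
is given by an automorphism over `M`. -/
theorem kummer94 {E U : Type} [Field E] [Field U] [Algebra E U] [IsAlgClosed E] [CharZero E]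
    (M : IntermediateField E U) [IsGalois M U] {n : ℕ} (hn : 0 < n) (χ : U → E)
    (hmul : ∀ w w' : U, (w ≠ 0 ∧ w ^ n ∈ M) → (w' ≠ 0 ∧ w' ^ n ∈ M) → χ (w * w') = χ w * χ w')
    (h1 : ∀ w ∈ M, w ≠ 0 → χ w = 1) :
    ∃ T : U ≃ₐ[M] U, ∀ w : U, (w ≠ 0 ∧ w ^ n ∈ M) → T w = algebraMap E U (χ w) * w := by
  classical
  -- constants are fixed
  have hE : ∀ (T : U ≃ₐ[M] U) (e : E), T (algebraMap E U e) = algebraMap E U e := fun T e =>
    T.commutes (algebraMap E M e)
  -- the group
  let S : Subgroup Uˣ :=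
    { carrier := {u | (u : U) ^ n ∈ M}
      mul_mem' := fun {a b} ha hb => by
        change ((a * b : Uˣ) : U) ^ n ∈ M
        rw [Units.val_mul, mul_pow]
        exact mul_mem ha hb
      one_mem' := by
        change ((1 : Uˣ) : U) ^ n ∈ M
        rw [Units.val_one, one_pow]
        exact one_mem M
      inv_mem' := fun {a} ha => by
        change ((a⁻¹ : Uˣ) : U) ^ n ∈ M
        rw [Units.val_inv_eq_inv_val, inv_pow]
        exact inv_mem ha }
  have hS : ∀ u : S, ((u : Uˣ) : U) ≠ 0 ∧ ((u : Uˣ) : U) ^ n ∈ M := fun u => ⟨u.1.ne_zero, u.2⟩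
  -- eigenvalues
  have heig : ∀ (T : U ≃ₐ[M] U) (u : S), ∃ ζ : E,
      T ((u : Uˣ) : U) = algebraMap E U ζ * ((u : Uˣ) : U) := by
    intro T u
    have h2 : (T ((u : Uˣ) : U) / ((u : Uˣ) : U)) ^ n = 1 := by
      have h3 : T (((u : Uˣ) : U) ^ n) = ((u : Uˣ) : U) ^ n :=
        T.commutes (⟨((u : Uˣ) : U) ^ n, u.2⟩ : M)
      rw [div_pow, ← map_pow, h3, div_self (pow_ne_zero _ (hS u).1)]
    obtain ⟨ζ, h4, h5⟩ := root_const99 (E := E) hn h2
    exact ⟨ζ, by rw [h5, div_mul_cancel₀ _ (hS u).1]⟩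
  -- the characters of the Galois group
  let c : S → ((U ≃ₐ[M] U) →* U) := fun u =>
    { toFun := fun T => T ((u : Uˣ) : U) / ((u : Uˣ) : U)
      map_one' := div_self (hS u).1
      map_mul' := fun T T' => by
        obtain ⟨ζ, hζ⟩ := heig T u
        obtain ⟨ζ', hζ'⟩ := heig T' u
        have h2 : (T * T') ((u : Uˣ) : U) = algebraMap E U ζ' * (algebraMap E U ζ * ((u : Uˣ) : U)) := by
          rw [AlgEquiv.mul_apply, hζ', map_mul, hE, hζ]
        rw [h2, hζ, hζ', mul_div_assoc, mul_div_assoc, mul_div_assoc, div_self (hS u).1]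
        ring }
  have hc : ∀ (u : S) (T : U ≃ₐ[M] U), T ((u : Uˣ) : U) = c u T * ((u : Uˣ) : U) := fun u T =>
    (div_mul_cancel₀ _ (hS u).1).symm
  -- equal characters: equal classes
  have hcM : ∀ u u' : S, c u = c u' → χ ((u : Uˣ) : U) = χ ((u' : Uˣ) : U) := by
    intro u u' huu
    have h2 : ((u : Uˣ) : U) / ((u' : Uˣ) : U) ∈ M := by
      have h3 := (InfiniteGalois.mem_range_algebraMap_iff_fixed (k := M) (K := U)
        (((u : Uˣ) : U) / ((u' : Uˣ) : U))).2 (fun T => by
          have h4 : c u T ≠ 0 := by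
            intro h0
            have h5 := hc u T
            rw [h0, zero_mul] at h5
            exact (hS u).1 ((map_eq_zero T).1 h5)
          rw [map_div₀, hc u T, hc u' T, ← huu]
          exact mul_div_mul_left _ _ h4)
      obtain ⟨m, hm⟩ := h3
      rw [← hm]
      exact m.2
    have h3 : ((u : Uˣ) : U) / ((u' : Uˣ) : U) ≠ 0 := div_ne_zero (hS u).1 (hS u').1
    have h4 := hmul _ _ ⟨h3, pow_mem h2 n⟩ (hS u')
    rw [div_mul_cancel₀ _ (hS u').1, h1 _ h2 h3, one_mul] at h4
    exact h4
  -- the two homomorphisms of the group algebra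
  let f1 : S →* U := (Units.coeHom U).comp S.subtype
  let f2 : S →* U :=
    { toFun := fun u => algebraMap E U (χ ((u : Uˣ) : U)) * ((u : Uˣ) : U)
      map_one' := by
        change algebraMap E U (χ ((1 : Uˣ) : U)) * ((1 : Uˣ) : U) = 1
        rw [Units.val_one, h1 1 (one_mem M) one_ne_zero, map_one, one_mul]
      map_mul' := fun u u' => by
        change algebraMap E U (χ (((u : Uˣ) * (u' : Uˣ) : Uˣ) : U)) * (((u : Uˣ) * (u' : Uˣ) : Uˣ) : U) = _
        rw [Units.val_mul, hmul _ _ (hS u) (hS u'), map_mul]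
        ring }
  let φ : MonoidAlgebra M S →ₐ[M] U := MonoidAlgebra.lift M U S f1
  let ψ : MonoidAlgebra M S →ₐ[M] U := MonoidAlgebra.lift M U S f2
  have hker : ∀ x : MonoidAlgebra M S, φ x = 0 → ψ x = 0 := by
    intro x hx
    have hφ : φ x = ∑ u ∈ x.coeff.support, (x.coeff u : U) * ((u : Uˣ) : U) := by
      change MonoidAlgebra.lift M U S f1 x = _
      rw [MonoidAlgebra.lift_apply']
      rfl
    have hψ : ψ x = ∑ u ∈ x.coeff.support, (x.coeff u : U) *
        (algebraMap E U (χ ((u : Uˣ) : U)) * ((u : Uˣ) : U)) := by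
      change MonoidAlgebra.lift M U S f2 x = _
      rw [MonoidAlgebra.lift_apply']
      rfl
    have h2 : ∀ T : U ≃ₐ[M] U, ∑ u ∈ x.coeff.support, (x.coeff u : U) * ((u : Uˣ) : U) * c u T = 0 := by
      intro T
      have h3 : T (φ x) = 0 := by rw [hx, map_zero]
      rw [hφ, map_sum] at h3
      rw [← h3]
      refine Finset.sum_congr rfl fun u _ => ?_
      have h4 : T (x.coeff u : U) = (x.coeff u : U) := T.commutes (x.coeff u)
      rw [map_mul, h4, hc u T]
      ring
    -- independence of characters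
    have h3 := linearIndependent_iff'.1 (linearIndependent_monoidHom (U ≃ₐ[M] U) U)
      (x.coeff.support.image c)
      (fun d => ∑ u ∈ x.coeff.support with c u = d, (x.coeff u : U) * ((u : Uˣ) : U)) (by
        funext T
        rw [Finset.sum_apply]
        change ∑ d ∈ x.coeff.support.image c,
          (∑ u ∈ x.coeff.support with c u = d, (x.coeff u : U) * ((u : Uˣ) : U)) * d T = 0
        rw [← h2 T, ← Finset.sum_fiberwise_of_maps_to (g := c) (t := x.coeff.support.image c)
          (fun u hu => Finset.mem_image_of_mem c hu)]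
        refine Finset.sum_congr rfl fun d _ => ?_
        rw [Finset.sum_mul]
        refine Finset.sum_congr rfl fun u hu => ?_
        rw [(Finset.mem_filter.1 hu).2])
    rw [hψ, ← Finset.sum_fiberwise_of_maps_to (g := c) (t := x.coeff.support.image c)
      (fun u hu => Finset.mem_image_of_mem c hu)]
    refine Finset.sum_eq_zero fun d hd => ?_
    obtain ⟨u₀, hu₀, rfl⟩ := Finset.mem_image.1 hd
    have h4 := h3 _ hd
    have h5 : ∑ u ∈ x.coeff.support with c u = c u₀, (x.coeff u : U) *
        (algebraMap E U (χ ((u : Uˣ) : U)) * ((u : Uˣ) : U)) =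
        algebraMap E U (χ ((u₀ : Uˣ) : U)) *
          ∑ u ∈ x.coeff.support with c u = c u₀, (x.coeff u : U) * ((u : Uˣ) : U) := by
      rw [Finset.mul_sum]
      refine Finset.sum_congr rfl fun u hu => ?_
      rw [hcM u u₀ (Finset.mem_filter.1 hu).2]
      ring
    rw [h5]
    change algebraMap E U (χ ((u₀ : Uˣ) : U)) * _ = 0
    have h6 : ∑ u ∈ x.coeff.support with c u = c u₀, (x.coeff u : U) * ((u : Uˣ) : U) = 0 := h4
    rw [h6, mul_zero]
  -- the field generated by the roots
  have hint : ∀ z : φ.range, IsIntegral M z := by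
    rintro ⟨z, hz⟩
    have h2 : IsIntegral M z := Algebra.IsIntegral.isIntegral z
    exact (isIntegral_algHom_iff φ.range.val Subtype.val_injective).1 h2
  have hfield : IsField φ.range := by
    have h2 : Algebra.IsIntegral M φ.range := ⟨hint⟩
    exact isField_of_isIntegral_of_isField' (Field.toIsField M)
  let N : IntermediateField M U := φ.range.toIntermediateField' hfield
  let φ' : MonoidAlgebra M S →ₐ[M] N := φ.rangeRestrict
  have hφ's : Function.Surjective φ' := φ.rangeRestrict_surjective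
  have hφ' : ∀ x, ((φ' x : N) : U) = φ x := fun x => rfl
  let g : N →ₐ[M] U := AlgHom.liftOfSurjective φ' hφ's ψ (fun x hx => by
    rw [RingHom.mem_ker] at hx ⊢
    refine hker x ?_
    rw [← hφ' x]
    have h2 : φ' x = 0 := hx
    rw [h2]
    rfl)
  have hg : ∀ x, g (φ' x) = ψ x := by
    intro x
    exact AlgHom.liftOfSurjective_apply _ _ _ _ _
  let G : U →ₐ[M] U := g.liftNormal U
  refine ⟨AlgEquiv.ofBijective G (AlgHom.normal_bijective M U U _), fun w hw => ?_⟩
  change G w = _
  let u : S := ⟨Units.mk0 w hw.1, hw.2⟩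
  have h2 : ((φ' (MonoidAlgebra.of M S u) : N) : U) = w := by
    rw [hφ']
    change MonoidAlgebra.lift M U S f1 (MonoidAlgebra.of M S u) = w
    rw [MonoidAlgebra.lift_of]
    rfl
  have h3 : G (algebraMap N U (φ' (MonoidAlgebra.of M S u))) =
      algebraMap U U (g (φ' (MonoidAlgebra.of M S u))) := g.liftNormal_commutes U _
  have h4 : algebraMap N U (φ' (MonoidAlgebra.of M S u)) = w := h2
  rw [h4, hg] at h3
  rw [h3]
  change MonoidAlgebra.lift M U S f2 (MonoidAlgebra.of M S u) = _
  rw [MonoidAlgebra.lift_of]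
  rfl

/-- **BLOCK KD.** -/
theorem kD : StmtKD := by
  intro k K0 E U _ _ _ _ _ _ _ _ _ _ _ _ h r G n χ hmul h1 _
  have hcE : CharZero E := charZero_of_injective_algebraMap (algebraMap k E).injective
  have hclE : IsAlgClosed E := G.clE
  have hn : Normal K0 U := G.normal
  have hKM : ∀ x : K0, algebraMap K0 U x ∈ MM E K0 r :=
    fun x => IntermediateField.subset_adjoin _ _ (Or.inl ⟨x, rfl⟩)
  have hrM : r ∈ MM E K0 r := IntermediateField.subset_adjoin _ _ (Or.inr rfl)
  have hcM : CharZero (MM E K0 r) :=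
    charZero_of_injective_algebraMap (algebraMap E (MM E K0 r)).injective
  have hgal : IsGalois (MM E K0 r) U := by
    let aKM : Algebra K0 (MM E K0 r) :=
      (RingHom.codRestrict (algebraMap K0 U) (MM E K0 r) hKM).toAlgebra
    have sKM : IsScalarTower K0 (MM E K0 r) U := IsScalarTower.of_algebraMap_eq fun x => rfl
    have hnM : Normal (MM E K0 r) U := Normal.tower_top_of_normal K0 (MM E K0 r) U
    exact ⟨⟩
  obtain ⟨T, hT⟩ := kummer94 (MM E K0 r) (n := 2 ^ n) (by positivity) χ hmul h1
  refine ⟨T.toRingEquiv, ⟨fun x => ?_, fun e => ?_⟩, ?_, fun w hw => hT w hw⟩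
  · exact T.commutes (⟨algebraMap K0 U x, hKM x⟩ : MM E K0 r)
  · exact T.commutes (algebraMap E (MM E K0 r) e)
  · exact T.commutes (⟨r, hrM⟩ : MM E K0 r)

end

end Pool.Agent.TOW
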